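import Pool.Agent.Lib.MP_f3871b_nt.R.Tab

/-! Majorants and the inductive estimate. -/

namespace Pool.Agent.Lib.MP_f3871b_nt.R

open Finset

variable {n : ℕ → ℤ} {r : ℤ}

theorem eq_of_rec {t : ℕ → ℤ} {K : ℕ} (hR : ∀ N, N ≠ 0 → Rec r n N)
    (ht : ∀ N ∈ Icc 1 K, Rec r t N) (N : ℕ) (hN : N ∈ Icc 1 K) : n N = t N := by
  induction N using Nat.strong_induction_on with
  | _ N ih =>
    have h1 := mem_Icc.1 hN
    have h2 := hR N (by omega)
    have h3 := ht N hN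
    unfold Rec at h2 h3
    have h4 : ∑ d ∈ N.properDivisors, (d : ℤ) * (-n d) ^ (N / d) =
        ∑ d ∈ N.properDivisors, (d : ℤ) * (-t d) ^ (N / d) := sum_congr rfl fun d hd => by
      have h5 := Nat.pos_of_mem_properDivisors hd
      have h6 := (Nat.mem_properDivisors.1 hd).2
      rw [ih d h6 (mem_Icc.2 ⟨h5, by omega⟩)]
    have h8 : (N : ℤ) ≠ 0 := by exact_mod_cast (by omega : N ≠ 0)
    exact mul_left_cancel₀ h8 (by rw [h2, h3, h4])

theorem n_one (hR : ∀ N, N ≠ 0 → Rec r n N) : n 1 = r := by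
  have := hR 1 one_ne_zero
  simpa [Rec] using this

theorem term_maj {r0 : ℤ} {m : ℕ → ℤ} (h0 : 1 ≤ r0) {N d : ℕ} (hd : d ∈ N.properDivisors)
    (h : |n d| * r0 ^ d ≤ m d * r ^ d) :
    |(d : ℤ) * (-n d) ^ (N / d)| * r0 ^ N ≤ (d : ℤ) * m d ^ (N / d) * r ^ N := by
  have h1 : N = d * (N / d) := (Nat.mul_div_cancel' (Nat.mem_properDivisors.1 hd).1).symm
  generalize N / d = q at h1 ⊢
  have h2 := pow_le_pow_left₀ (by positivity) h q
  rw [mul_pow, mul_pow, ← pow_mul, ← pow_mul, ← h1] at h2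
  rw [abs_mul, abs_pow, abs_neg, Nat.abs_cast, mul_assoc, mul_assoc]
  exact mul_le_mul_of_nonneg_left h2 (Nat.cast_nonneg d)

theorem lin_maj {r0 : ℤ} (h0 : 1 ≤ r0) (hr : r0 ≤ r) {N : ℕ} (hN : N ≠ 0) :
    r * r0 ^ N ≤ r0 * r ^ N := by
  obtain ⟨k, rfl⟩ := Nat.exists_eq_add_one_of_ne_zero hN
  have h1 : r0 ^ k ≤ r ^ k := pow_le_pow_left₀ (by omega) hr k
  have h2 : 0 ≤ r * r0 := by nlinarith
  calc r * r0 ^ (k + 1) = (r * r0) * r0 ^ k := by ring
    _ ≤ (r * r0) * r ^ k := mul_le_mul_of_nonneg_left h1 h2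
    _ = r0 * r ^ (k + 1) := by ring

theorem maj_bound {r0 : ℤ} {m : ℕ → ℤ} {K : ℕ} (h0 : 1 ≤ r0) (hr : r0 ≤ r)
    (hR : ∀ N, N ≠ 0 → Rec r n N) (hm : ∀ N ∈ Icc 1 K, Maj r0 m N) (N : ℕ) (hN : N ∈ Icc 1 K) :
    |n N| * r0 ^ N ≤ m N * r ^ N := by
  induction N using Nat.strong_induction_on with
  | _ N ih =>
    have h1 := mem_Icc.1 hN
    have h2 := hR N (by omega)
    have h3 := hm N hN
    unfold Rec at h2
    unfold Maj at h3
    have hσ : (0 : ℤ) ≤ ∑ d ∈ N.divisors, (d : ℤ) := sum_nonneg fun d _ => Nat.cast_nonneg d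
    have hp : (0 : ℤ) < r0 ^ N := by positivity
    have hq : (0 : ℤ) < r ^ N := pow_pos (by omega) N
    have h4 : |∑ d ∈ N.properDivisors, (d : ℤ) * (-n d) ^ (N / d)| * r0 ^ N ≤
        (∑ d ∈ N.properDivisors, (d : ℤ) * m d ^ (N / d)) * r ^ N := by
      refine (mul_le_mul_of_nonneg_right (abs_sum_le_sum_abs _ _) hp.le).trans ?_
      rw [sum_mul, sum_mul]
      exact sum_le_sum fun d hd => term_maj h0 hd (ih d (Nat.mem_properDivisors.1 hd).2
        (mem_Icc.2 ⟨Nat.pos_of_mem_properDivisors hd, by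
          have := (Nat.mem_properDivisors.1 hd).2; omega⟩))
    have h5 := mul_le_mul_of_nonneg_right (lin_maj h0 hr (N := N) (by omega)) hσ
    have h6 : (N : ℤ) * |n N| ≤ r * ∑ d ∈ N.divisors, (d : ℤ) +
        |∑ d ∈ N.properDivisors, (d : ℤ) * (-n d) ^ (N / d)| := by
      rw [← Nat.abs_cast (R := ℤ) N, ← abs_mul, h2]
      refine (abs_add_le _ _).trans ?_
      rw [abs_of_nonneg (mul_nonneg (by omega) hσ)]
    have h7 := mul_le_mul_of_nonneg_right h3 hq.le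
    have h8 := mul_le_mul_of_nonneg_right h6 hp.le
    have h9 : (0 : ℤ) < N := by exact_mod_cast (by omega : 0 < N)
    refine le_of_mul_le_mul_left ?_ h9
    nlinarith

theorem sign_of_dom {r0 : ℤ} {m : ℕ → ℤ} (h0 : 1 ≤ r0) (hr : r0 ≤ r)
    (hR : ∀ N, N ≠ 0 → Rec r n N) {N : ℕ} (hN : 2 ≤ N)
    (hb : ∀ d ∈ N.properDivisors, |n d| * r0 ^ d ≤ m d * r ^ d) (hd : Dom r0 m N) :
    (N % 2 = 0 → 0 < n N) ∧ (N % 2 = 1 → n N < 0) := by
  have h2 := hR N (by omega)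
  unfold Rec at h2
  rw [← add_sum_erase _ _ (Nat.one_mem_properDivisors_iff_one_lt.2 hN), n_one hR] at h2
  simp only [Nat.cast_one, one_mul, Nat.div_one] at h2
  have hσ : (0 : ℤ) ≤ ∑ d ∈ N.divisors, (d : ℤ) := sum_nonneg fun d _ => Nat.cast_nonneg d
  have hp : (0 : ℤ) < r0 ^ N := by positivity
  have hq : (0 : ℤ) < r ^ N := pow_pos (by omega) N
  have h9 : (0 : ℤ) < N := by exact_mod_cast (by omega : 0 < N)
  constructor
  · intro he
    have h3 := mul_lt_mul_of_pos_right (hd.1 he) hq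
    have h4 : -((∑ d ∈ N.properDivisors.erase 1,
        (if N / d % 2 = 1 then (d : ℤ) * m d ^ (N / d) else 0)) * r ^ N) ≤
        (∑ d ∈ N.properDivisors.erase 1, (d : ℤ) * (-n d) ^ (N / d)) * r0 ^ N := by
      rw [sum_mul, sum_mul, ← sum_neg_distrib]
      refine sum_le_sum fun d hd' => ?_
      have h5 := term_maj h0 (mem_of_mem_erase hd') (hb d (mem_of_mem_erase hd'))
      split_ifs with h6
      · have h7 := mul_le_mul_of_nonneg_right (neg_abs_le ((d : ℤ) * (-n d) ^ (N / d))) hp.le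
        linarith
      · have h7 : Even (N / d) := Nat.even_iff.2 (by omega)
        have h8 := h7.pow_nonneg (-n d)
        rw [zero_mul, neg_zero]
        positivity
    rw [(Nat.even_iff.2 he).neg_pow] at h2
    have h5 : 0 ≤ r * (∑ d ∈ N.divisors, (d : ℤ)) * r0 ^ N :=
      mul_nonneg (mul_nonneg (by omega) hσ) hp.le
    have h6 : 0 < (N : ℤ) * n N * r0 ^ N := by rw [h2]; nlinarith
    exact (mul_pos_iff_of_pos_left h9).1 ((mul_pos_iff_of_pos_right hp).1 h6)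
  · intro ho
    have h3 := mul_lt_mul_of_pos_right (hd.2 ho) hq
    have h4 : (∑ d ∈ N.properDivisors.erase 1, (d : ℤ) * (-n d) ^ (N / d)) * r0 ^ N ≤
        (∑ d ∈ N.properDivisors.erase 1, (d : ℤ) * m d ^ (N / d)) * r ^ N := by
      rw [sum_mul, sum_mul]
      exact sum_le_sum fun d hd' => (mul_le_mul_of_nonneg_right (le_abs_self _) hp.le).trans
        (term_maj h0 (mem_of_mem_erase hd') (hb d (mem_of_mem_erase hd')))
    rw [(Nat.odd_iff.2 ho).neg_pow] at h2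
    have h5 := mul_le_mul_of_nonneg_right (lin_maj h0 hr (N := N) (by omega)) hσ
    have h6 : (N : ℤ) * n N * r0 ^ N < 0 := by rw [h2]; nlinarith
    by_contra hc
    exact absurd h6 (not_lt.2 (mul_nonneg (mul_nonneg h9.le (not_lt.1 hc)) hp.le))

theorem siz_real {S a : ℤ} {m : ℕ → ℤ} {d : ℕ} {s t : ℝ} (hs : 0 ≤ s) (hS : s ^ 2 = S) (ht : 0 ≤ t)
    (h : Siz S m d) (ha : |(a : ℝ)| ≤ |(m d : ℝ)| * t ^ d) :
    (d ≤ 64 → |(a : ℝ)| ≤ (97 / 100 * (s * t)) ^ d) ∧ (64 < d → d * |(a : ℝ)| ≤ 5 * (s * t) ^ d) := by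
  have hp : 0 ≤ t ^ d := by positivity
  constructor
  · intro h1
    have h2 : (m d : ℝ) ^ 2 * 10000 ^ d ≤ 9409 ^ d * (S : ℝ) ^ d := by exact_mod_cast h.1 h1
    have h3 : |(m d : ℝ)| ≤ (97 / 100 * s) ^ d := by
      refine abs_le_of_sq_le_sq ?_ (by positivity)
      have e : ((97 / 100 * s) ^ d) ^ 2 = 9409 ^ d * (S : ℝ) ^ d / 10000 ^ d := by
        rw [← pow_mul, mul_comm d 2, pow_mul, mul_pow, hS, ← mul_pow, ← div_pow]
        congr 1
        ring
      rw [e, le_div_iff₀ (by positivity)]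
      exact h2
    rw [← mul_assoc, mul_pow]
    exact ha.trans (mul_le_mul_of_nonneg_right h3 hp)
  · intro h1
    have h2 : (d : ℝ) ^ 2 * (m d : ℝ) ^ 2 ≤ 25 * (S : ℝ) ^ d := by exact_mod_cast h.2 h1
    have h3 : d * |(m d : ℝ)| ≤ 5 * s ^ d := by
      refine (pow_le_pow_iff_left₀ (by positivity) (by positivity) two_ne_zero).1 ?_
      rw [mul_pow, mul_pow, sq_abs, ← pow_mul, mul_comm d 2, pow_mul, hS]
      linarith
    have h4 := mul_le_mul_of_nonneg_left ha (Nat.cast_nonneg (α := ℝ) d)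
    have h5 := mul_le_mul_of_nonneg_right h3 hp
    rw [mul_pow]
    linarith

theorem sq_le_pow (N : ℕ) (hN : 300 ≤ N) : 20 * N ^ 2 ≤ 2 ^ N := by
  induction N, hN using Nat.le_induction with
  | base => decide +kernel
  | succ M hM ih => rw [pow_succ 2 M]; nlinarith

theorem pow_small : ((97 : ℝ) / 100) ^ 300 ≤ 23 / 100 / 2080 := by
  have h1 : ((97 : ℝ) / 100) ^ 100 ≤ 476 / 10000 := by norm_num
  have h2 : ((97 : ℝ) / 100) ^ 300 = (((97 : ℝ) / 100) ^ 100) ^ 3 := by rw [← pow_mul]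
  rw [h2]
  exact (pow_le_pow_left₀ (by positivity) h1 3).trans (by norm_num)

theorem geom_bound (K : ℕ) : ∑ q ∈ Ico 2 K, (5 : ℝ) * (5 / 64) ^ (q - 1) ≤ 25 / 59 := by
  have h : ∀ K : ℕ, ∑ q ∈ Ico 2 (K + 2), (5 : ℝ) * (5 / 64) ^ (q - 1) =
      25 / 59 * (1 - (5 / 64) ^ K) := by
    intro K
    induction K with
    | zero => simp
    | succ K ih =>
      rw [show K + 1 + 2 = (K + 2) + 1 by ring, sum_Ico_succ_top (by omega), ih,
        show K + 2 - 1 = K + 1 by omega]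
      ring
  rcases Nat.lt_or_ge K 2 with hK | hK
  · rw [Ico_eq_empty (by omega)]; norm_num
  · obtain ⟨K, rfl⟩ := Nat.exists_eq_add_of_le' hK
    rw [h]
    have : (0 : ℝ) ≤ (5 / 64) ^ K := by positivity
    linarith

theorem err_step (hR : ∀ N, N ≠ 0 → Rec r n N) (A : Finset ℕ) {s : ℝ} (hs : 2 ≤ s)
    (hr0 : 0 ≤ r) (hrs : (r : ℝ) ≤ s) (N : ℕ) (hN : 300 ≤ N)
    (h1 : ∀ d ∈ N.properDivisors, d ∉ A → d ≤ 64 → |(n d : ℝ)| ≤ (97 / 100 * s) ^ d)
    (h2 : ∀ d ∈ N.properDivisors, d ∉ A → 64 < d → d * |(n d : ℝ)| ≤ 5 * s ^ d) :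
    |(N : ℝ) * n N - ∑ d ∈ N.properDivisors.filter (· ∈ A), (d : ℝ) * (-(n d : ℝ)) ^ (N / d)| ≤
      4 / 5 * s ^ N := by
  have h0 : (N : ℝ) * n N = r * ∑ d ∈ N.divisors, (d : ℝ) +
      ∑ d ∈ N.properDivisors, (d : ℝ) * (-(n d : ℝ)) ^ (N / d) := by
    have := hR N (by omega)
    unfold Rec at this
    have h := congrArg (Int.cast (R := ℝ)) this
    push_cast at h
    exact h
  rw [h0, ← sum_filter_add_sum_filter_not N.properDivisors (· ∈ A), ← add_assoc,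
    add_sub_right_comm, add_sub_cancel_right]
  have hP : (0 : ℝ) < s ^ N := by positivity
  have term : ∀ d ∈ N.properDivisors.filter (fun d => ¬ d ∈ A),
      |(d : ℝ) * (-(n d : ℝ)) ^ (N / d)| ≤
        (if d ≤ 64 then (d : ℝ) * (97 / 100 * s) ^ N else 0) +
          5 * (5 / 64) ^ (N / d - 1) * s ^ N := by
    intro d hd
    obtain ⟨hd, hdA⟩ := mem_filter.1 hd
    have e : N = d * (N / d) := (Nat.mul_div_cancel' (Nat.mem_properDivisors.1 hd).1).symm
    have hq := Nat.one_lt_div_of_mem_properDivisors hd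
    generalize N / d = q at e hq ⊢
    have hd0 : (0 : ℝ) ≤ d := Nat.cast_nonneg d
    rw [abs_mul, abs_pow, abs_neg, abs_of_nonneg hd0]
    split_ifs with h64
    · have h3 : |(n d : ℝ)| ^ q ≤ (97 / 100 * s) ^ N := by
        rw [e, pow_mul]
        exact pow_le_pow_left₀ (abs_nonneg _) (h1 d hd hdA h64) q
      have h4 := mul_le_mul_of_nonneg_left h3 hd0
      have h5 : (0 : ℝ) ≤ 5 * (5 / 64) ^ (q - 1) * s ^ N := by positivity
      linarith
    · have h6 := h2 d hd hdA (by omega)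
      have he : (64 : ℝ) ≤ d := by exact_mod_cast (by omega : 64 ≤ d)
      have h7 : |(n d : ℝ)| ≤ 5 / 64 * s ^ d := by
        have := abs_nonneg (n d : ℝ)
        nlinarith
      obtain ⟨p, rfl⟩ := Nat.exists_eq_add_of_le' hq.le
      have h8 : |(n d : ℝ)| ^ p ≤ (5 / 64 * s ^ d) ^ p := pow_le_pow_left₀ (abs_nonneg _) h7 p
      rw [zero_add, Nat.add_sub_cancel, e, pow_mul, pow_succ, pow_succ]
      calc (d : ℝ) * (|(n d : ℝ)| ^ p * |(n d : ℝ)|) = (d * |(n d : ℝ)|) * |(n d : ℝ)| ^ p := by ring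
        _ ≤ (5 * s ^ d) * (5 / 64 * s ^ d) ^ p := mul_le_mul h6 h8 (by positivity) (by positivity)
        _ = 5 * (5 / 64) ^ p * ((s ^ d) ^ p * s ^ d) := by rw [mul_pow]; ring
  have h4 := (abs_sum_le_sum_abs _ _).trans (sum_le_sum term)
  rw [sum_add_distrib] at h4
  have b1 : (r : ℝ) * ∑ d ∈ N.divisors, (d : ℝ) ≤ 1 / 10 * s ^ N := by
    have c1 : ∑ d ∈ N.divisors, (d : ℝ) ≤ (N : ℝ) ^ 2 := by
      calc ∑ d ∈ N.divisors, (d : ℝ) ≤ ∑ d ∈ N.divisors, (N : ℝ) :=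
            sum_le_sum fun d hd => by exact_mod_cast Nat.divisor_le hd
        _ = N.divisors.card * (N : ℝ) := by rw [sum_const, nsmul_eq_mul]
        _ ≤ N * (N : ℝ) := by
            gcongr
            exact Nat.card_divisors_le_self N
        _ = (N : ℝ) ^ 2 := by ring
    have c2 : 20 * (N : ℝ) ^ 2 ≤ 2 ^ N := by exact_mod_cast sq_le_pow N hN
    obtain ⟨k, rfl⟩ : ∃ k, N = k + 1 := ⟨N - 1, by omega⟩
    have c3 : (2 : ℝ) ^ k ≤ s ^ k := pow_le_pow_left₀ (by norm_num) hs k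
    have c4 := mul_le_mul hrs c1 (sum_nonneg fun d _ => Nat.cast_nonneg d) (by linarith)
    rw [pow_succ 2 k] at c2
    rw [pow_succ s]
    generalize ((k + 1 : ℕ) : ℝ) ^ 2 = u at c2 c4
    have c5 : s * (10 * u) ≤ s * s ^ k := mul_le_mul_of_nonneg_left (by linarith) (by linarith)
    linarith
  have b0 : (0 : ℝ) ≤ (r : ℝ) * ∑ d ∈ N.divisors, (d : ℝ) :=
    mul_nonneg (by exact_mod_cast hr0) (sum_nonneg fun d _ => Nat.cast_nonneg d)
  have b2 : ∑ d ∈ N.properDivisors.filter (fun d => ¬ d ∈ A),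
      (if d ≤ 64 then (d : ℝ) * (97 / 100 * s) ^ N else 0) ≤ 23 / 100 * s ^ N := by
    rw [← sum_filter]
    have hsub : (N.properDivisors.filter (fun d => ¬ d ∈ A)).filter (· ≤ 64) ⊆ range 65 :=
      fun d hd => mem_range.mpr (by have := (mem_filter.mp hd).2; omega)
    have hs' : ∑ d ∈ range 65, (d : ℝ) = 2080 := by
      have : ∑ d ∈ range 65, d = 2080 := by decide +kernel
      rw [← Nat.cast_sum, this]
      norm_num
    have hp : ((97 : ℝ) / 100) ^ N ≤ (97 / 100) ^ 300 :=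
      pow_le_pow_of_le_one (by norm_num) (by norm_num) hN
    calc _ ≤ ∑ d ∈ range 65, (d : ℝ) * (97 / 100 * s) ^ N :=
          sum_le_sum_of_subset_of_nonneg hsub (fun _ _ _ => by positivity)
      _ = 2080 * (97 / 100) ^ N * s ^ N := by rw [← sum_mul, hs', mul_pow, mul_assoc]
      _ ≤ 2080 * (23 / 100 / 2080) * s ^ N := by gcongr; exact hp.trans pow_small
      _ = 23 / 100 * s ^ N := by norm_num
  have b3 : ∑ d ∈ N.properDivisors.filter (fun d => ¬ d ∈ A),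
      (5 : ℝ) * (5 / 64) ^ (N / d - 1) * s ^ N ≤ 25 / 59 * s ^ N := by
    rw [← sum_mul]
    apply mul_le_mul_of_nonneg_right _ hP.le
    refine le_trans (sum_le_sum_of_subset_of_nonneg (filter_subset _ _)
      (fun _ _ _ => by positivity)) (le_trans ?_ (geom_bound (N + 1)))
    rw [← sum_image (s := N.properDivisors) (g := fun d => N / d)
      (f := fun q => (5 : ℝ) * (5 / 64) ^ (q - 1))]
    · apply sum_le_sum_of_subset_of_nonneg _ (fun _ _ _ => by positivity)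
      intro q hq
      obtain ⟨d, hd, rfl⟩ := mem_image.mp hq
      rw [mem_Ico]
      exact ⟨Nat.one_lt_div_of_mem_properDivisors hd, Nat.lt_succ_of_le (Nat.div_le_self _ _)⟩
    · intro x hx y hy hxy
      have hx' := (Nat.mem_properDivisors.mp (mem_coe.mp hx)).1
      have hy' := (Nat.mem_properDivisors.mp (mem_coe.mp hy)).1
      simp only at hxy
      rw [← Nat.div_div_self hx' (by omega), hxy, Nat.div_div_self hy' (by omega)]
  refine (abs_add_le _ _).trans ?_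
  rw [abs_of_nonneg b0]
  linarith

theorem main_le (A : Finset ℕ) {s : ℝ} (hs : 0 ≤ s) (hA : ∀ d ∈ A, d ≤ 2 ∧ |(n d : ℝ)| ≤ s ^ d)
    (N : ℕ) :
    |∑ d ∈ N.properDivisors.filter (· ∈ A), (d : ℝ) * (-(n d : ℝ)) ^ (N / d)| ≤ 3 * s ^ N := by
  refine (abs_sum_le_sum_abs _ _).trans ?_
  calc _ ≤ ∑ d ∈ N.properDivisors.filter (· ∈ A), (d : ℝ) * s ^ N := sum_le_sum fun d hd => by
        obtain ⟨hd, hdA⟩ := mem_filter.1 hd
        have e : N = d * (N / d) := (Nat.mul_div_cancel' (Nat.mem_properDivisors.1 hd).1).symm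
        generalize N / d = q at e ⊢
        rw [abs_mul, abs_pow, abs_neg, Nat.abs_cast, e, pow_mul]
        exact mul_le_mul_of_nonneg_left (pow_le_pow_left₀ (abs_nonneg _) (hA d hdA).2 q)
          (Nat.cast_nonneg d)
    _ ≤ ∑ d ∈ range 3, (d : ℝ) * s ^ N := sum_le_sum_of_subset_of_nonneg
        (fun d hd => mem_range.2 (by have := (hA d (mem_filter.1 hd).2).1; omega))
        (fun _ _ _ => by positivity)
    _ = 3 * s ^ N := by simp [sum_range_succ]; ring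

theorem err_bound (hR : ∀ N, N ≠ 0 → Rec r n N) (Q : ℕ → Prop) (hQ : ∀ N d, Q N → d ∣ N → Q d)
    (A : Finset ℕ) {s : ℝ} (hs : 2 ≤ s) (hr0 : 0 ≤ r) (hrs : (r : ℝ) ≤ s)
    (hA : ∀ d ∈ A, d ≤ 2 ∧ |(n d : ℝ)| ≤ s ^ d)
    (h : ∀ d, Q d → 1 ≤ d → d ≤ 300 → d ∉ A → (d ≤ 64 → |(n d : ℝ)| ≤ (97 / 100 * s) ^ d) ∧
      (64 < d → d * |(n d : ℝ)| ≤ 5 * s ^ d)) (N : ℕ) (hN : 300 < N) (hq : Q N) :
    |(N : ℝ) * n N - ∑ d ∈ N.properDivisors.filter (· ∈ A), (d : ℝ) * (-(n d : ℝ)) ^ (N / d)| ≤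
      4 / 5 * s ^ N := by
  induction N using Nat.strong_induction_on with
  | _ N ih =>
    refine err_step hR A hs hr0 hrs N hN.le (fun d hd hdA h64 => ?_) (fun d hd hdA h64 => ?_)
    · exact (h d (hQ N d hq (Nat.mem_properDivisors.1 hd).1) (Nat.pos_of_mem_properDivisors hd)
        (by omega) hdA).1 h64
    · have hd' := hQ N d hq (Nat.mem_properDivisors.1 hd).1
      rcases le_or_gt d 300 with h3 | h3
      · exact (h d hd' (by omega) h3 hdA).2 h64
      · have h4 := ih d (Nat.mem_properDivisors.1 hd).2 h3 hd'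
        have h5 := main_le A (by linarith : 0 ≤ s) hA d
        have h6 : (0 : ℝ) < s ^ d := by positivity
        rw [← Nat.abs_cast (R := ℝ) d, ← abs_mul]
        rw [abs_le] at h4 h5 ⊢
        constructor <;> linarith [h4.1, h4.2, h5.1, h5.2]

end Pool.Agent.Lib.MP_f3871b_nt.R
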