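import Pool.Agent.Results.MP_f3871b_nt.AllPowers

/-! The statement of the retired hand-in SignPattern, literally, from the hand-in AllPowers. -/

namespace Pool.Agent.Lib.MP_f3871b_nt.R

open scoped PowerSeries.WithPiTopology

/-- The definition used by the retired hand-in. -/
def IsExpansionOld (n : ℕ → ℤ) : Prop :=
  HasProd
    (fun k : ℕ => (1 + PowerSeries.C (n (k + 1)) * PowerSeries.X ^ (k + 1) : PowerSeries ℤ))
    (PowerSeries.mk fun m => (Fintype.card (Nat.Partition m) : ℤ))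

theorem signPattern_of_allPowers :
    (∃ n : ℕ → ℤ, IsExpansionOld n) ∧
    ∀ n : ℕ → ℤ, IsExpansionOld n → ∀ k : ℕ, 1 ≤ k →
      n (8 * k + 2) < 0 ∧ n (8 * k + 4) < 0 ∧ n (8 * k + 6) < 0 ∧ 0 < n (8 * k) := by
  have e : ∀ n, Pool.Agent.Results.MP_f3871b_nt.AllPowers.IsExpansion 1 n ↔ IsExpansionOld n :=
    fun n => by
      unfold Pool.Agent.Results.MP_f3871b_nt.AllPowers.IsExpansion IsExpansionOld
      rw [pow_one]
  obtain ⟨⟨n, hn⟩, h⟩ := Pool.Agent.Results.MP_f3871b_nt.AllPowers.result 1 le_rfl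
  refine ⟨⟨n, (e n).1 hn⟩, fun n hn k hk => ?_⟩
  have h1 := h n ((e n).2 hn) (8 * k + 2) (by omega)
  have h2 := h n ((e n).2 hn) (8 * k + 4) (by omega)
  have h3 := h n ((e n).2 hn) (8 * k + 6) (by omega)
  have h4 := h n ((e n).2 hn) (8 * k) (by omega)
  rw [Nat.odd_iff, Nat.even_iff] at h1 h2 h3 h4
  omega

end Pool.Agent.Lib.MP_f3871b_nt.R
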