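import Pool.Agent.Lib.MP_f3871b_nt.Recurrence

/-! Power product expansion of a power of the partition series: existence and recurrence. -/

namespace Pool.Agent.Lib.MP_f3871b_nt.R

open PowerSeries Finset
open scoped PowerSeries.WithPiTopology

theorem coeff_sum_logd (a : ℕ → ℤ) (N : ℕ) (s : Finset ℕ) (hs : range N ⊆ s) :
    coeff N (∑ i ∈ s, logd (a (i + 1)) (i + 1)) =
      -∑ d ∈ N.divisors, (d : ℤ) * (-a d) ^ (N / d) := by
  classical
  rw [map_sum, ← sum_neg_distrib]
  simp only [logd, coeff_mk]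
  symm
  apply sum_of_injOn (fun d => d - 1)
  · intro x hx y hy hxy
    have hx' := Nat.pos_of_mem_divisors (mem_coe.mp hx)
    have hy' := Nat.pos_of_mem_divisors (mem_coe.mp hy)
    simp only at hxy
    omega
  · intro d hd
    apply hs
    have h1 := Nat.pos_of_mem_divisors hd
    have h2 := Nat.divisor_le hd
    rw [mem_range]
    show d - 1 < N
    omega
  · intro i _ hi
    rw [if_neg]
    intro hh
    exact hi ⟨i + 1, by simpa using hh, by simp⟩
  · intro d hd
    have h1 := Nat.pos_of_mem_divisors hd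
    have h2 : d - 1 + 1 = d := by omega
    rw [h2, if_pos (Nat.mem_divisors.mp hd)]
    ring

theorem theta_pow (D L : ℤ⟦X⟧) (h : theta D = D * L) (r : ℕ) :
    theta (D ^ r) = D ^ r * (C (r : ℤ) * L) := by
  induction r with
  | zero => simp [theta_one]
  | succ r ih =>
    rw [pow_succ, theta_mul, ih, h]
    simp only [Nat.cast_add, Nat.cast_one, map_add, map_one]
    ring

theorem recurrence_pow {r : ℕ} {n : ℕ → ℤ}
    (h : HasProd (fun k : ℕ => (1 + C (n (k + 1)) * X ^ (k + 1) : ℤ⟦X⟧)) (partGF ^ r)) (N : ℕ) :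
    ∑ d ∈ N.divisors, (d : ℤ) * (-n d) ^ (N / d) + r * ∑ d ∈ N.divisors, (d : ℤ) = 0 := by
  classical
  obtain ⟨s, ⟨hs1, hs2⟩, hs3⟩ := (((eventually_dvd h (N + 1)).and
    (eventually_dvd hasProd_partGF (N + 1))).and (Filter.eventually_ge_atTop (range N))).exists
  set A : ℤ⟦X⟧ := ∏ i ∈ s, (1 + C (n (i + 1)) * X ^ (i + 1)) with hA
  set B : ℤ⟦X⟧ := ∏ i ∈ s, ∑' j : ℕ, (X ^ ((i + 1) * j) : ℤ⟦X⟧) with hB
  set D : ℤ⟦X⟧ := ∏ i ∈ s, (1 + C ((fun _ => (-1 : ℤ)) i) * X ^ (i + 1)) with hD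
  have hBD : B * D = 1 := by
    rw [hB, hD, ← prod_mul_distrib]
    exact prod_eq_one fun i _ => geom_mul i
  have hAD : X ^ (N + 1) ∣ A * D ^ r - 1 := by
    have : A * D ^ r - 1 = ((A - partGF ^ r) - (B ^ r - partGF ^ r)) * D ^ r := by
      rw [← one_pow r, ← hBD]; ring
    rw [this]
    exact Dvd.dvd.mul_right (dvd_sub hs1 (hs2.trans (sub_dvd_pow_sub_pow _ _ r))) _
  have hth : X ^ (N + 1) ∣ theta (A * D ^ r) := by
    rw [X_pow_dvd_iff] at hAD ⊢
    intro m hm
    have := hAD m hm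
    rw [map_sub, sub_eq_zero] at this
    rw [coeff_theta, this, coeff_one]
    split_ifs with h0
    · simp [h0]
    · simp
  set L : ℤ⟦X⟧ := ∑ i ∈ s, logd (n (i + 1)) (i + 1) +
    C (r : ℤ) * ∑ i ∈ s, logd (-1) (i + 1) with hL
  have hth2 : theta (A * D ^ r) = (A * D ^ r) * L := by
    rw [theta_mul, theta_pow D _ (theta_prod (fun _ => -1) s) r, hA,
      theta_prod (fun i => n (i + 1)), hL]
    ring
  have hL0 : X ^ (N + 1) ∣ L := by
    have : L = theta (A * D ^ r) - (A * D ^ r - 1) * L := by rw [hth2]; ring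
    rw [this]
    exact dvd_sub hth (Dvd.dvd.mul_right hAD _)
  rw [X_pow_dvd_iff] at hL0
  have hc := hL0 N (Nat.lt_succ_self N)
  rw [hL, map_add, coeff_C_mul, coeff_sum_logd n N s hs3,
    coeff_sum_logd (fun _ => -1) N s hs3] at hc
  simp only [neg_neg, one_pow, mul_one] at hc
  linarith

/-- The sequence obtained by comparing coefficients (index shifted by one). -/
noncomputable def expoF (F : ℤ⟦X⟧) (i : ℕ) : ℤ :=
  coeff (i + 1) F -
    coeff (i + 1) (∏ j : Fin i, (1 + C (expoF F j) * X ^ ((j : ℕ) + 1) : ℤ⟦X⟧))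
termination_by i
decreasing_by exact j.2

theorem exists_expansionF (F : ℤ⟦X⟧) (hF : constantCoeff F = 1) : ∃ n : ℕ → ℤ,
    HasProd (fun k : ℕ => (1 + C (n (k + 1)) * X ^ (k + 1) : ℤ⟦X⟧)) F := by
  refine ⟨fun k => expoF F (k - 1), ?_⟩
  rw [HasProd, WithPiTopology.tendsto_iff_coeff_tendsto]
  intro d
  refine tendsto_atTop_of_eventually_const (i₀ := range d) (fun s (hs : s ≥ range d) => ?_)
  simp only [Nat.add_sub_cancel]
  rw [coeff_prod_stable (expoF F) d s hs]
  cases d with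
  | zero => simp [hF]
  | succ i =>
    rw [prod_range_succ, mul_add, mul_one, map_add, ← mul_assoc, coeff_mul_X_pow',
      if_pos le_rfl, Nat.sub_self, coeff_zero_eq_constantCoeff_apply, map_mul, constantCoeff_prod,
      constantCoeff_C, one_mul, expoF, Fin.prod_univ_eq_prod_range
        (fun j => (1 + C (expoF F j) * X ^ (j + 1) : ℤ⟦X⟧)) i]
    ring

theorem constantCoeff_partGF_pow (r : ℕ) : constantCoeff (partGF ^ r) = 1 := by
  rw [map_pow]
  have : constantCoeff partGF = 1 := by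
    rw [← coeff_zero_eq_constantCoeff_apply]
    simp [partGF]
  rw [this, one_pow]

end Pool.Agent.Lib.MP_f3871b_nt.R
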