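import Pool.Agent.Lib.MP_f3871b_nt.R.Est
import Pool.Agent.Lib.MP_f3871b_nt.R.Rec
import Pool.Agent.Lib.MP_f3871b_nt.Signs

/-! Signs for every exponent. -/

namespace Pool.Agent.Lib.MP_f3871b_nt.R

open Finset

variable {n : ℕ → ℤ} {r : ℤ}

theorem rec_of_sum (h : ∀ N : ℕ, ∑ d ∈ N.divisors, (d : ℤ) * (-n d) ^ (N / d) +
    r * ∑ d ∈ N.divisors, (d : ℤ) = 0) (N : ℕ) (hN : N ≠ 0) : Rec r n N := by
  have := h N
  rw [← Nat.insert_self_properDivisors hN, sum_insert Nat.self_notMem_properDivisors,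
    Nat.insert_self_properDivisors hN, Nat.div_self (Nat.pos_of_ne_zero hN), pow_one] at this
  unfold Rec
  linarith

theorem filter_eq {N : ℕ} (hN : 2 < N) (A B : Finset ℕ) (h : ∀ d, d ∈ B ↔ d ∈ A ∧ d ∣ N)
    (hA : ∀ d ∈ A, d ≤ 2) : N.properDivisors.filter (· ∈ A) = B := by
  ext d
  rw [mem_filter, Nat.mem_properDivisors, h]
  exact ⟨fun H => ⟨H.2, H.1.1⟩, fun H => ⟨⟨H.2, by have := hA d H.1; omega⟩, H.1⟩⟩

theorem sign_of_err {N : ℕ} {M P : ℝ} (hN : 0 < N) (hP : 0 < P)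
    (h : |(N : ℝ) * n N - M| ≤ 4 / 5 * P) : (P ≤ M → 0 < n N) ∧ (M ≤ -P → n N < 0) := by
  rw [abs_le] at h
  have h0 : (0 : ℝ) < N := by exact_mod_cast hN
  constructor
  · intro h1
    have : (0 : ℝ) < N * n N := by linarith [h.1]
    exact_mod_cast ((mul_pos_iff_of_pos_left h0).mp this : (0 : ℝ) < n N)
  · intro h1
    have : (N : ℝ) * n N < 0 := by linarith [h.2]
    exact_mod_cast (neg_of_mul_neg_right this h0.le : (n N : ℝ) < 0)

theorem one_dom (hR : ∀ N, N ≠ 0 → Rec r n N) (hr : 2 ≤ r) (Q : ℕ → Prop)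
    (hQ : ∀ N d, Q N → d ∣ N → Q d)
    (h : ∀ d, Q d → 2 ≤ d → d ≤ 300 → (d ≤ 64 → |(n d : ℝ)| ≤ (97 / 100 * (r : ℝ)) ^ d) ∧
      (64 < d → d * |(n d : ℝ)| ≤ 5 * (r : ℝ) ^ d)) (N : ℕ) (hN : 300 < N) (hq : Q N) :
    (N % 2 = 0 → 0 < n N) ∧ (N % 2 = 1 → n N < 0) := by
  have hs : (2 : ℝ) ≤ r := by exact_mod_cast hr
  have h1 := err_bound hR Q hQ {1} hs (by omega) le_rfl
    (fun d hd => by
      rw [mem_singleton.1 hd, n_one hR, pow_one, abs_of_nonneg (by linarith)]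
      exact ⟨by norm_num, le_rfl⟩)
    (fun d h1 h2 h3 h4 => h d h1 (by rw [mem_singleton] at h4; omega) h3) N hN hq
  rw [filter_eq (by omega) {1} {1} (fun d => by
    rw [mem_singleton]; exact ⟨fun e => ⟨e, e ▸ one_dvd N⟩, fun e => e.1⟩)
    (fun d hd => by rw [mem_singleton.1 hd]; norm_num), sum_singleton, n_one hR, Nat.cast_one,
    one_mul, Nat.div_one] at h1
  have h2 := sign_of_err (by omega) (by positivity) h1
  exact ⟨fun he => h2.1 (by rw [(Nat.even_iff.2 he).neg_pow]),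
    fun ho => h2.2 (by rw [(Nat.odd_iff.2 ho).neg_pow])⟩

theorem signs_two (hR : ∀ N, N ≠ 0 → Rec 2 n N) (k : ℕ) (hk : 1 ≤ k) :
    (0 < n k ↔ k ≤ 2 ∨ k % 4 = 0) ∧ (n k = 0 ↔ k = 3) := by
  have ht := eq_of_rec hR rec2
  rcases le_or_gt k 300 with h | h
  · rw [ht k (mem_Icc.2 ⟨hk, h⟩)]
    exact sgn2 k (mem_Icc.2 ⟨hk, h⟩)
  suffices H : (k % 4 = 0 → 0 < n k) ∧ (k % 4 ≠ 0 → n k < 0) by omega
  rcases Nat.mod_two_eq_zero_or_one k with he | ho
  · have h5 : Real.sqrt 5 ^ 2 = ((5 : ℤ) : ℝ) := by rw [Real.sq_sqrt] <;> norm_num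
    have hs : (2 : ℝ) ≤ Real.sqrt 5 := Real.le_sqrt_of_sq_le (by norm_num)
    have h2 : n 2 = 5 := (ht 2 (by decide)).trans e2_two
    have h1 := err_bound hR (fun _ => True) (fun _ _ _ _ => trivial) {2} hs (by norm_num)
      (by exact_mod_cast hs)
      (fun d hd => by rw [mem_singleton.1 hd, h2, h5]; norm_num)
      (fun d _ h2 h3 h4 => by
        have := siz_real (a := n d) (t := 1) (by linarith) h5 zero_le_one
          (siz2 d (mem_Icc.2 ⟨h2, h3⟩) (by simpa using h4))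
          (by rw [ht d (mem_Icc.2 ⟨h2, h3⟩), one_pow, mul_one])
        simpa only [mul_one] using this) k h trivial
    obtain ⟨M, rfl⟩ : ∃ M, k = 2 * M := ⟨k / 2, by omega⟩
    rw [filter_eq (by omega) {2} {2} (fun d => by
      rw [mem_singleton]; exact ⟨fun e => ⟨e, e ▸ dvd_mul_right 2 M⟩, fun e => e.1⟩)
      (fun d hd => by rw [mem_singleton.1 hd]), sum_singleton, h2, pow_mul, h5,
      Nat.mul_div_cancel_left _ two_pos] at h1
    have h3 := sign_of_err (by omega) (by positivity) h1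
    have h4 : (0 : ℝ) < ((5 : ℤ) : ℝ) ^ M := by positivity
    refine ⟨fun h6 => h3.1 ?_, fun h6 => h3.2 ?_⟩
    · rw [(Nat.even_iff.2 (by omega : M % 2 = 0)).neg_pow]
      push_cast at h4 ⊢
      linarith
    · rw [(Nat.odd_iff.2 (by omega : M % 2 = 1)).neg_pow]
      push_cast at h4 ⊢
      linarith
  · have h1 := one_dom hR le_rfl (fun d => d % 2 = 1)
      (fun N d h1 h2 => Nat.odd_iff.1 ((Nat.odd_iff.2 h1).of_dvd_nat h2))
      (fun d h1 h2 h3 => by
        have := siz_real (a := n d) (t := 1) (s := ((2 : ℤ) : ℝ)) (by norm_num) (by norm_num)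
          zero_le_one (siz2' d (mem_Icc.2 ⟨h2, h3⟩) h1)
          (by rw [ht d (mem_Icc.2 ⟨by omega, h3⟩), one_pow, mul_one])
        simpa only [mul_one] using this) k h ho
    exact ⟨fun h4 => by omega, fun _ => h1.2 ho⟩

theorem signs_three (hR : ∀ N, N ≠ 0 → Rec 3 n N) (k : ℕ) (hk : 1 ≤ k) :
    (0 < n k ↔ k ≤ 2 ∨ k % 4 = 0) ∧ n k ≠ 0 := by
  have ht := eq_of_rec hR rec3
  rcases le_or_gt k 300 with h | h
  · rw [ht k (mem_Icc.2 ⟨hk, h⟩)]
    exact sgn3 k (mem_Icc.2 ⟨hk, h⟩)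
  suffices H : (k % 4 = 0 → 0 < n k) ∧ (k % 4 ≠ 0 → n k < 0) by omega
  have h2 : n 2 = 9 := (ht 2 (by decide)).trans e3_two
  have h1 := err_bound hR (fun _ => True) (fun _ _ _ _ => trivial) {1, 2} (s := 3) (by norm_num)
    (by norm_num) (by norm_num)
    (fun d hd => by
      rcases mem_insert.1 hd with rfl | hd
      · rw [n_one hR]; norm_num
      · rw [mem_singleton.1 hd, h2]; norm_num)
    (fun d _ h2 h3 h4 => by
      have h5 : 3 ≤ d := by
        simp only [mem_insert, mem_singleton] at h4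
        omega
      have := siz_real (a := n d) (t := 1) (s := 3) (by norm_num) (by norm_num) zero_le_one
        (siz3 d (mem_Icc.2 ⟨h5, h3⟩)) (by rw [ht d (mem_Icc.2 ⟨h2, h3⟩), one_pow, mul_one])
      simpa only [mul_one] using this) k h trivial
  rcases Nat.mod_two_eq_zero_or_one k with he | ho
  · obtain ⟨M, rfl⟩ : ∃ M, k = 2 * M := ⟨k / 2, by omega⟩
    rw [filter_eq (by omega) {1, 2} {1, 2} (fun d => ⟨fun e => ⟨e, by
      rcases mem_insert.1 e with rfl | e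
      · exact one_dvd _
      · rw [mem_singleton.1 e]; exact dvd_mul_right 2 M⟩, fun e => e.1⟩)
      (fun d hd => by simp only [mem_insert, mem_singleton] at hd; omega),
      sum_pair (by norm_num), h2, n_one hR, Nat.div_one, Nat.mul_div_cancel_left _ two_pos,
      pow_mul, pow_mul] at h1
    have h3 := sign_of_err (by omega) (by positivity) h1
    have h4 : (0 : ℝ) < (9 : ℝ) ^ M := by positivity
    refine ⟨fun h6 => h3.1 ?_, fun h6 => h3.2 ?_⟩
    · rw [(Nat.even_iff.2 (by omega : M % 2 = 0)).neg_pow]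
      norm_num
    · rw [(Nat.odd_iff.2 (by omega : M % 2 = 1)).neg_pow]
      norm_num
      linarith
  · rw [filter_eq (by omega) {1, 2} {1} (fun d => by
      simp only [mem_insert, mem_singleton]
      refine ⟨fun e => ⟨Or.inl e, e ▸ one_dvd k⟩, fun e => e.1.resolve_right fun e2 => ?_⟩
      have := e.2
      rw [e2] at this
      omega)
      (fun d hd => by simp only [mem_insert, mem_singleton] at hd; omega),
      sum_singleton, n_one hR, Nat.div_one] at h1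
    have h3 := sign_of_err (by omega) (by positivity) h1
    refine ⟨fun h4 => by omega, fun _ => h3.2 ?_⟩
    rw [(Nat.odd_iff.2 ho).neg_pow]
    norm_num

theorem signs_large (hR : ∀ N, N ≠ 0 → Rec r n N) (hr : 4 ≤ r) (k : ℕ) (hk : 19 ≤ k) :
    (k % 2 = 0 → 0 < n k) ∧ (k % 2 = 1 → n k < 0) := by
  have hb := maj_bound (by norm_num) hr hR maj4
  rcases le_or_gt k 300 with h | h
  · exact sign_of_dom (by norm_num) hr hR (by omega) (fun d hd => hb d (mem_Icc.2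
      ⟨Nat.pos_of_mem_properDivisors hd, by have := (Nat.mem_properDivisors.1 hd).2; omega⟩))
      (dom4 k (mem_Icc.2 ⟨hk, h⟩))
  have hr' : (4 : ℝ) ≤ r := by exact_mod_cast hr
  refine one_dom hR (by omega) (fun _ => True) (fun _ _ _ _ => trivial) (fun d _ h2 h3 => ?_) k h
    trivial
  have h4 : |(n d : ℝ)| * 4 ^ d ≤ m4 d * (r : ℝ) ^ d := by
    exact_mod_cast hb d (mem_Icc.2 ⟨by omega, h3⟩)
  have := siz_real (a := n d) (t := (r : ℝ) / 4) (s := 4) (by norm_num) (by norm_num)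
    (by positivity) (siz4 d (mem_Icc.2 ⟨h2, h3⟩)) (by
      rw [div_pow, ← mul_div_assoc, le_div_iff₀ (by positivity)]
      exact h4.trans (mul_le_mul_of_nonneg_right (le_abs_self _) (by positivity)))
  rwa [mul_div_cancel₀ _ (by norm_num : (4 : ℝ) ≠ 0)] at this

theorem signs_four (hR : ∀ N, N ≠ 0 → Rec r n N) (hr : 4 ≤ r) (k : ℕ) (hk : 1 ≤ k) :
    (0 < n k ↔ k ≤ 2 ∨ (k % 2 = 0 ∧ ¬ (r = 4 ∧ k = 6))) ∧ n k ≠ 0 := by
  rcases le_or_gt 19 k with h | h
  · have := signs_large hR hr k h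
    omega
  have hm : k ∈ Icc 1 18 := mem_Icc.2 ⟨hk, by omega⟩
  rcases (by omega : r = 4 ∨ r = 5 ∨ 6 ≤ r) with rfl | rfl | h6
  · rw [eq_of_rec hR rec4 k hm]
    have := sgn4 k hm
    omega
  · rw [eq_of_rec hR rec5 k hm]
    have := sgn5 k hm
    omega
  · rcases (by omega : k = 1 ∨ 2 ≤ k) with rfl | h2
    · rw [n_one hR]
      omega
    · have hb := maj_bound (by norm_num) h6 hR maj6
      have := sign_of_dom (by norm_num) h6 hR h2 (fun d hd => hb d (mem_Icc.2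
        ⟨Nat.pos_of_mem_properDivisors hd, by have := (Nat.mem_properDivisors.1 hd).2; omega⟩))
        (dom6 k (mem_Icc.2 ⟨h2, by omega⟩))
      omega

theorem tab_six : tab.getD 5 0 = 0 := by decide +kernel

theorem signs_one (hR : ∀ N : ℕ, ∑ d ∈ N.divisors, (d : ℤ) * ((-n d) ^ (N / d) + 1) = 0)
    (k : ℕ) (hk : 1 ≤ k) :
    (0 < n k ↔ k ≤ 2 ∨ k % 2 = 1 ∨ k = 4 ∨ k % 8 = 0) ∧ (n k = 0 ↔ k = 6) := by
  rcases Nat.mod_two_eq_zero_or_one k with he | ho
  · obtain ⟨M, rfl⟩ : ∃ M, k = 2 * M := ⟨k / 2, by omega⟩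
    rcases (by omega : M = 1 ∨ M = 2 ∨ M = 3 ∨ 4 ≤ M) with rfl | rfl | rfl | h
    · have := n_two hR
      simp [this]
    · have := n_four hR
      simp [this]
    · have : n 6 = 0 := (eq_tab hR 6 (by norm_num) (by norm_num)).trans tab_six
      simp [this]
    · have := signs hR M h
      omega
  · have := odd_eq_one hR k (Nat.odd_iff.2 ho)
    omega

end Pool.Agent.Lib.MP_f3871b_nt.R
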